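import Pool.Agent.Helper67.NO.St2

/-!
# Project NO, module IFT: critical pairs vary smoothly
-/

set_option autoImplicit false

namespace Pool.Agent.Helper10.NO

open Pool.Agent.Helper67.NO Matrix
open scoped Matrix.Norms.Frobenius ContDiff Topology

section

variable {n : Type} [Fintype n] [DecidableEq n]

/-- the adjoint as a continuous real linear map -/
noncomputable def ctL (n : Type) [Fintype n] [DecidableEq n] : Matrix n n ℂ →L[ℝ] Matrix n n ℂ :=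
  LinearMap.toContinuousLinearMap
    { toFun := fun x => xᴴ
      map_add' := fun x y => Matrix.conjTranspose_add x y
      map_smul' := fun c x => by simp [Matrix.conjTranspose_smul] }

theorem ctL_apply (x : Matrix n n ℂ) : ctL n x = xᴴ := rfl

theorem hasDeriv_mom {A B : ℝ → Matrix n n ℂ} {v w : Matrix n n ℂ} {t : ℝ}
    (hA : HasDerivAt A v t) (hB : HasDerivAt B w t) :
    HasDerivAt (fun s => mom (A s) (B s)) (dm (A t) (B t) v w) t := by
  have hA' : HasDerivAt (fun s => (A s)ᴴ) vᴴ t := (ctL n).hasFDerivAt.comp_hasDerivAt t hA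
  have hB' : HasDerivAt (fun s => (B s)ᴴ) wᴴ t := (ctL n).hasFDerivAt.comp_hasDerivAt t hB
  have h1 := (hA.mul hA').sub (hA'.mul hA)
  have h2 := (hB.mul hB').sub (hB'.mul hB)
  have h3 := h1.add h2
  have e : dm (A t) (B t) v w = v * (A t)ᴴ + A t * vᴴ - (vᴴ * A t + (A t)ᴴ * v) +
      (w * (B t)ᴴ + B t * wᴴ - (wᴴ * B t + (B t)ᴴ * w)) := by
    unfold dm br
    abel
  rw [e]
  exact h3

theorem contDiff_mom {E : Type} [NormedAddCommGroup E] [NormedSpace ℝ E] {A B : E → Matrix n n ℂ}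
    {u : E} (hA : ContDiffAt ℝ ∞ A u) (hB : ContDiffAt ℝ ∞ B u) :
    ContDiffAt ℝ ∞ (fun s => mom (A s) (B s)) u := by
  have hA' : ContDiffAt ℝ ∞ (fun s => (A s)ᴴ) u := (ctL n).contDiff.contDiffAt.comp u hA
  have hB' : ContDiffAt ℝ ∞ (fun s => (B s)ᴴ) u := (ctL n).contDiff.contDiffAt.comp u hB
  exact ((hA.mul hA').sub (hA'.mul hA)).add ((hB.mul hB').sub (hB'.mul hB))

end

section

variable {ι κ : Type} [Fintype ι] [DecidableEq ι] [Fintype κ] [DecidableEq κ]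

omit [Fintype ι] [DecidableEq ι] [Fintype κ] [DecidableEq κ] in
theorem low_sub {lev : κ → ℕ} {a b : Matrix (ι ⊕ κ) (ι ⊕ κ) ℂ} (ha : Low lev a) (hb : Low lev b) :
    Low lev (a - b) := by
  intro p q h
  by_cases h1 : a p q = 0
  · refine hb p q fun h2 => h ?_
    rw [Matrix.sub_apply, h1, h2, sub_zero]
  · exact ha p q h1

omit [Fintype ι] [DecidableEq ι] [Fintype κ] [DecidableEq κ] in
theorem rai_sub {lev : κ → ℕ} {a b : Matrix (ι ⊕ κ) (ι ⊕ κ) ℂ} (ha : Rai lev a) (hb : Rai lev b) :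
    Rai lev (a - b) := by
  intro p q h
  by_cases h1 : a p q = 0
  · refine hb p q fun h2 => h ?_
    rw [Matrix.sub_apply, h1, h2, sub_zero]
  · exact ha p q h1

/-- Hermitian level preserving matrices -/
def pS (lev : κ → ℕ) : Submodule ℝ (Matrix κ κ ℂ) where
  carrier := {y | Lvl lev y ∧ y.IsHermitian}
  add_mem' := by
    rintro x y ⟨hx, hx'⟩ ⟨hy, hy'⟩
    refine ⟨?_, hx'.add hy'⟩
    intro p q h
    by_cases h1 : x p q = 0
    · refine hy p q fun h2 => h ?_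
      rw [Matrix.add_apply, h1, h2, add_zero]
    · exact hx p q h1
  zero_mem' := ⟨fun p q h => absurd rfl h, Matrix.isHermitian_zero⟩
  smul_mem' := by
    rintro c x ⟨hx, hx'⟩
    refine ⟨?_, ?_⟩
    · intro p q h
      refine hx p q fun h1 => h ?_
      rw [Matrix.smul_apply, h1, smul_zero]
    · unfold Matrix.IsHermitian at *
      rw [Matrix.conjTranspose_smul, hx', star_trivial]

/-- `bd` as a continuous real linear map -/
noncomputable def bdL (ι κ : Type) [Fintype ι] [DecidableEq ι] [Fintype κ] [DecidableEq κ] :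
    (Matrix ι ι ℂ × Matrix κ κ ℂ) →L[ℝ] Matrix (ι ⊕ κ) (ι ⊕ κ) ℂ :=
  LinearMap.toContinuousLinearMap
    { toFun := fun x => bd x.1 x.2
      map_add' := fun x y => by
        unfold bd
        rw [Matrix.fromBlocks_add]
        simp
      map_smul' := fun c x => by
        unfold bd
        simp only [RingHom.id_apply]
        rw [Matrix.fromBlocks_smul]
        simp }

theorem bdL_apply (x : Matrix ι ι ℂ × Matrix κ κ ℂ) : bdL ι κ x = bd x.1 x.2 := rfl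

/-- the lower right block as a continuous real linear map -/
noncomputable def tbL (ι κ : Type) [Fintype ι] [DecidableEq ι] [Fintype κ] [DecidableEq κ] :
    Matrix (ι ⊕ κ) (ι ⊕ κ) ℂ →L[ℝ] Matrix κ κ ℂ :=
  LinearMap.toContinuousLinearMap
    { toFun := fun x => x.toBlocks₂₂
      map_add' := fun x y => by
        ext i j
        rfl
      map_smul' := fun c x => by
        ext i j
        rfl }

theorem tbL_bd (x : Matrix ι ι ℂ) (y : Matrix κ κ ℂ) : tbL ι κ (bd x y) = y := by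
  show (bd x y).toBlocks₂₂ = y
  unfold bd
  exact Matrix.toBlocks_fromBlocks₂₂ _ _ _ _

/-- the matrix `G` -/
noncomputable def Gf {lev : κ → ℕ} (u : Matrix ι ι ℂ × pS lev) : Matrix (ι ⊕ κ) (ι ⊕ κ) ℂ :=
  bd u.1 (NormedSpace.exp (u.2 : Matrix κ κ ℂ))

/-- its inverse -/
noncomputable def Gi {lev : κ → ℕ} (u : Matrix ι ι ℂ × pS lev) : Matrix (ι ⊕ κ) (ι ⊕ κ) ℂ :=
  bd (Ring.inverse u.1) (NormedSpace.exp (-(u.2 : Matrix κ κ ℂ)))

theorem contDiff_exp (x : Matrix κ κ ℂ) :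
    ContDiffAt ℝ ∞ (NormedSpace.exp : Matrix κ κ ℂ → Matrix κ κ ℂ) x :=
  (NormedSpace.exp_analytic (𝕂 := ℝ) x).contDiffAt

theorem contDiff_Gf {lev : κ → ℕ} (u : Matrix ι ι ℂ × pS lev) :
    ContDiffAt ℝ ∞ (Gf : Matrix ι ι ℂ × pS lev → _) u := by
  have h1 : ContDiffAt ℝ ∞ (fun u : Matrix ι ι ℂ × pS lev => (u.2 : Matrix κ κ ℂ)) u :=
    (pS lev).subtypeL.contDiff.contDiffAt.comp u contDiffAt_snd
  have h2 : ContDiffAt ℝ ∞ (fun u : Matrix ι ι ℂ × pS lev =>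
      NormedSpace.exp (u.2 : Matrix κ κ ℂ)) u := (contDiff_exp _).comp u h1
  exact (bdL ι κ).contDiff.contDiffAt.comp u (contDiffAt_fst.prodMk h2)

theorem contDiff_Gi {lev : κ → ℕ} (y : pS lev) :
    ContDiffAt ℝ ∞ (Gi : Matrix ι ι ℂ × pS lev → _) (1, y) := by
  have h1 : ContDiffAt ℝ ∞ (fun u : Matrix ι ι ℂ × pS lev => -(u.2 : Matrix κ κ ℂ)) (1, y) :=
    ((pS lev).subtypeL.contDiff.contDiffAt.comp _ contDiffAt_snd).neg
  have h2 : ContDiffAt ℝ ∞ (fun u : Matrix ι ι ℂ × pS lev =>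
      NormedSpace.exp (-(u.2 : Matrix κ κ ℂ))) (1, y) := (contDiff_exp _).comp _ h1
  have h3 : ContDiffAt ℝ ∞ (Ring.inverse : Matrix ι ι ℂ → Matrix ι ι ℂ) 1 :=
    contDiffAt_ringInverse ℝ (1 : (Matrix ι ι ℂ)ˣ)
  have h4 : ContDiffAt ℝ ∞ (fun u : Matrix ι ι ℂ × pS lev => Ring.inverse u.1) (1, y) :=
    ContDiffAt.comp (1, y) (f := fun u : Matrix ι ι ℂ × pS lev => u.1) h3 contDiffAt_fst
  exact (bdL ι κ).contDiff.contDiffAt.comp _ (h4.prodMk h2)

omit [DecidableEq κ] in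
/-- a real linear projection to the Hermitian level preserving matrices -/
theorem exists_proj (lev : κ → ℕ) : ∃ pr : Matrix κ κ ℂ →L[ℝ] pS lev,
    ∀ y : pS lev, pr (y : Matrix κ κ ℂ) = y := by
  obtain ⟨pr, hpr⟩ := (pS lev).subtype.exists_leftInverse_of_injective (pS lev).ker_subtype
  refine ⟨LinearMap.toContinuousLinearMap pr, fun y => ?_⟩
  exact LinearMap.congr_fun hpr y

/-- the equation -/
noncomputable def Psi {lev : κ → ℕ} (pr : Matrix κ κ ℂ →L[ℝ] pS lev)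
    (a b : Matrix (ι ⊕ κ) (ι ⊕ κ) ℂ) (u : Matrix ι ι ℂ × pS lev) : pS lev :=
  pr (tbL ι κ (mom (Gf u * a * Gi u) (Gf u * b * Gi u)))

theorem contDiff_Psi {lev : κ → ℕ} (pr : Matrix κ κ ℂ →L[ℝ] pS lev)
    (a b : Matrix (ι ⊕ κ) (ι ⊕ κ) ℂ) (y : pS lev) : ContDiffAt ℝ ∞ (Psi pr a b) (1, y) := by
  have h1 := contDiff_Gf (lev := lev) ((1, y) : Matrix ι ι ℂ × pS lev)
  have h2 := contDiff_Gi (ι := ι) (lev := lev) y
  have ha := (h1.mul (contDiffAt_const (c := a))).mul h2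
  have hb := (h1.mul (contDiffAt_const (c := b))).mul h2
  have h3 := contDiff_mom ha hb
  exact pr.contDiff.contDiffAt.comp _ ((tbL ι κ).contDiff.contDiffAt.comp _ h3)

theorem hasDeriv_G {lev : κ → ℕ} (hBDA : StBDA) (η : pS lev) :
    HasDerivAt (fun t : ℝ => Gf ((1, t • η) : Matrix ι ι ℂ × pS lev)) (bd 0 (η : Matrix κ κ ℂ)) 0 ∧
    HasDerivAt (fun t : ℝ => Gi ((1, t • η) : Matrix ι ι ℂ × pS lev))
      (-bd 0 (η : Matrix κ κ ℂ)) 0 := by
  have h0 : HasDerivAt (fun t : ℝ => NormedSpace.exp (t • (η : Matrix κ κ ℂ))) (η : Matrix κ κ ℂ) 0 := by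
    have := hasDerivAt_exp_smul_const (𝕂 := ℝ) (η : Matrix κ κ ℂ) 0
    rw [zero_smul, NormedSpace.exp_zero, one_mul] at this
    exact this
  have h1 : HasDerivAt (fun t : ℝ => NormedSpace.exp (t • (-(η : Matrix κ κ ℂ))))
      (-(η : Matrix κ κ ℂ)) 0 := by
    have := hasDerivAt_exp_smul_const (𝕂 := ℝ) (-(η : Matrix κ κ ℂ)) 0
    rw [zero_smul, NormedSpace.exp_zero, one_mul] at this
    exact this
  constructor
  · have h2 : HasDerivAt (fun t : ℝ => ((1 : Matrix ι ι ℂ), NormedSpace.exp (t • (η : Matrix κ κ ℂ))))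
        ((0 : Matrix ι ι ℂ), (η : Matrix κ κ ℂ)) 0 := (hasDerivAt_const _ _).prodMk h0
    exact (bdL ι κ).hasFDerivAt.comp_hasDerivAt (0 : ℝ) h2
  · have h2 : HasDerivAt (fun t : ℝ => ((1 : Matrix ι ι ℂ), NormedSpace.exp (t • (-(η : Matrix κ κ ℂ)))))
        ((0 : Matrix ι ι ℂ), -(η : Matrix κ κ ℂ)) 0 := (hasDerivAt_const _ _).prodMk h1
    have h3 := (bdL ι κ).hasFDerivAt.comp_hasDerivAt (0 : ℝ) h2
    have e : -bd (0 : Matrix ι ι ℂ) (η : Matrix κ κ ℂ) = bd 0 (-(η : Matrix κ κ ℂ)) := by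
      rw [((hBDA ι κ).2.1 _ _).2.1, neg_zero]
    rw [e]
    refine h3.congr_of_eventuallyEq (Filter.Eventually.of_forall fun t => ?_)
    show Gi ((1, t • η) : Matrix ι ι ℂ × pS lev) = bd 1 (NormedSpace.exp (t • (-(η : Matrix κ κ ℂ))))
    unfold Gi
    simp only [Ring.inverse_one, Submodule.coe_smul, smul_neg]

theorem dm_conj {n : Type} [Fintype n] (a b v w : Matrix n n ℂ) : (dm a b v w)ᴴ = dm a b v w := by
  unfold dm br
  simp only [Matrix.conjTranspose_add, Matrix.conjTranspose_sub, Matrix.conjTranspose_mul,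
    Matrix.conjTranspose_conjTranspose]
  abel

end

theorem pIFT (h1 : StBL) (h2 : StLVL) (h3 : StBDA) (h4 : StALG) (h5 : StGEN) : StIFT := by
  intro ι κ _ _ _ _ lev a b hLa hRb hSt hCr
  obtain ⟨H, hH⟩ := hCr
  obtain ⟨bl1, -, -, bl4, bl5, -, bl7, bl8⟩ := h1 ι κ lev
  obtain ⟨lv1, lv0, lvo, lvs, lvx, lvi⟩ := h2 κ lev
  obtain ⟨bda1, bda2, bda3, bda4, bda5, bda6, bda7⟩ := h3 ι κ
  obtain ⟨pr, hpr⟩ := exists_proj lev
  have cdf : ContDiffAt ℝ ∞ (Psi pr a b) ((1, 0) : Matrix ι ι ℂ × pS lev) := contDiff_Psi pr a b 0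
  have hG0 : Gf ((1, 0) : Matrix ι ι ℂ × pS lev) = 1 := by
    unfold Gf
    simp only [Submodule.coe_zero, NormedSpace.exp_zero]
    exact bda4
  have hI0 : Gi ((1, 0) : Matrix ι ι ℂ × pS lev) = 1 := by
    unfold Gi
    simp only [Submodule.coe_zero, neg_zero, NormedSpace.exp_zero, Ring.inverse_one]
    exact bda4
  have hPsi0 : Psi pr a b ((1, 0) : Matrix ι ι ℂ × pS lev) = 0 := by
    unfold Psi
    rw [hG0, hI0, one_mul, one_mul, mul_one, mul_one, hH, tbL_bd, map_zero]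
  -- the derivative in the second variable
  have hT : ∀ η : pS lev, (fderiv ℝ (Psi pr a b) ((1, 0) : Matrix ι ι ℂ × pS lev) ∘L
      .inr ℝ (Matrix ι ι ℂ) (pS lev)) η =
      pr (tbL ι κ (dm a b (br (bd 0 (η : Matrix κ κ ℂ)) a) (br (bd 0 (η : Matrix κ κ ℂ)) b))) := by
    intro η
    have hd : HasFDerivAt (Psi pr a b) (fderiv ℝ (Psi pr a b) ((1, 0) : Matrix ι ι ℂ × pS lev))
        ((1, 0) : Matrix ι ι ℂ × pS lev) := (cdf.differentiableAt (by simp)).hasFDerivAt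
    have hcurve : HasDerivAt (fun t : ℝ => ((1, t • η) : Matrix ι ι ℂ × pS lev)) (0, η) 0 := by
      have h6 : HasDerivAt (fun t : ℝ => t • η) ((1 : ℝ) • η) 0 := (hasDerivAt_id (0 : ℝ)).smul_const η
      rw [one_smul] at h6
      exact (hasDerivAt_const (0 : ℝ) (1 : Matrix ι ι ℂ)).prodMk h6
    have hd' : HasFDerivAt (Psi pr a b) (fderiv ℝ (Psi pr a b) ((1, 0) : Matrix ι ι ℂ × pS lev))
        ((1, (0 : ℝ) • η) : Matrix ι ι ℂ × pS lev) := by
      rw [zero_smul]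
      exact hd
    have e1 := hd'.comp_hasDerivAt (0 : ℝ) hcurve
    obtain ⟨g1, g2⟩ := hasDeriv_G (ι := ι) h3 η
    have a1 := (g1.mul (hasDerivAt_const (0 : ℝ) a)).mul g2
    have b1 := (g1.mul (hasDerivAt_const (0 : ℝ) b)).mul g2
    have m1 := hasDeriv_mom a1 b1
    have e2 := (pr ∘L tbL ι κ).hasFDerivAt.comp_hasDerivAt (0 : ℝ) m1
    have e3 := e1.unique e2
    have e4 : Gf ((1, (0 : ℝ) • η) : Matrix ι ι ℂ × pS lev) = 1 := by rw [zero_smul]; exact hG0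
    have e5 : Gi ((1, (0 : ℝ) • η) : Matrix ι ι ℂ × pS lev) = 1 := by rw [zero_smul]; exact hI0
    have e6 : ∀ x : Matrix (ι ⊕ κ) (ι ⊕ κ) ℂ, bd 0 (η : Matrix κ κ ℂ) * x + x * -bd 0 (η : Matrix κ κ ℂ) =
        br (bd 0 (η : Matrix κ κ ℂ)) x := by
      intro x
      unfold br
      rw [mul_neg, sub_eq_add_neg]
    simp only [Pi.mul_apply, e4, e5, one_mul, mul_one, mul_zero, add_zero, e6] at e3
    exact e3
  -- injectivity
  have hinj : Function.Injective (fderiv ℝ (Psi pr a b) ((1, 0) : Matrix ι ι ℂ × pS lev) ∘L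
      .inr ℝ (Matrix ι ι ℂ) (pS lev)) := by
    rw [injective_iff_map_eq_zero]
    intro η hη
    rw [hT η] at hη
    have hl : Lvl lev (η : Matrix κ κ ℂ) := η.2.1
    have hh : (η : Matrix κ κ ℂ).IsHermitian := η.2.2
    obtain ⟨x, hx⟩ : ∃ x : Matrix (ι ⊕ κ) (ι ⊕ κ) ℂ, x = bd 0 (η : Matrix κ κ ℂ) := ⟨_, rfl⟩
    have hxx : xᴴ = x := by
      rw [hx, (bda2 _ _).1, Matrix.conjTranspose_zero, hh]
    have hv : Low lev (br x a) := by
      rw [hx]
      exact low_sub (bl4 a hLa 0 _ hl).1 (bl4 a hLa 0 _ hl).2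
    have hw : Rai lev (br x b) := by
      rw [hx]
      exact rai_sub (bl5 b hRb 0 _ hl).1 (bl5 b hRb 0 _ hl).2
    obtain ⟨h, y, hy, hD⟩ := (bl8 a b (br x a) (br x b) hLa hRb hv hw).2.2
    have hyH : y.IsHermitian := by
      have h6 : (bd h y)ᴴ = bd h y := by rw [← hD]; exact dm_conj _ _ _ _
      rw [(bda2 _ _).1] at h6
      exact (bda6 _ _ _ _ h6).2
    rw [← hx, hD, tbL_bd] at hη
    have hy0 : y = 0 := by
      have h7 := hpr ⟨y, hy, hyH⟩
      have h8 : pr y = (⟨y, hy, hyH⟩ : pS lev) := h7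
      rw [hη] at h8
      have h9 := congrArg (fun z : pS lev => (z : Matrix κ κ ℂ)) h8
      exact h9.symm
    rw [hy0] at hD
    obtain ⟨-, -, alg3, alg4, -, -, -, -, alg9⟩ := h4 (ι ⊕ κ)
    have h10 := alg3 x a b (br x a) (br x b)
    rw [hD, hxx, alg4] at h10
    have h11 : trace (x * bd h 0) = 0 := by
      rw [hx, (bda1 _ _ _ _).1, zero_mul, mul_zero, bda5, Matrix.trace_zero]
    rw [h11] at h10
    have h12 : nsq (br x a) (br x b) = 0 := by
      have h13 := congrArg Complex.re h10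
      simp only [Complex.zero_re, Complex.add_re, Complex.ofReal_re, Complex.star_def,
        Complex.conj_ofReal] at h13
      linarith
    have h14 := (alg9 _ _ h12).2
    rw [hx] at h14
    have h15 := (h5 ι κ lev a b hRb hSt).2 _ h14
    exact Subtype.ext h15
  have hinv : (fderiv ℝ (Psi pr a b) ((1, 0) : Matrix ι ι ℂ × pS lev) ∘L
      .inr ℝ (Matrix ι ι ℂ) (pS lev)).IsInvertible := by
    refine ⟨(LinearEquiv.ofInjectiveEndo (_ : pS lev →L[ℝ] pS lev).toLinearMap hinj).toContinuousLinearEquiv,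
      ?_⟩
    ext1 η
    rfl
  obtain ⟨f, hf⟩ : ∃ f : Matrix ι ι ℂ → pS lev, f = cdf.implicitFunction (by simp) hinv := ⟨_, rfl⟩
  have hf1 : f 1 = 0 := by
    rw [hf]
    exact cdf.implicitFunction_apply_self (by simp) hinv
  have hfc : ContDiffAt ℝ ∞ f 1 := by
    rw [hf]
    exact cdf.contDiffAt_implicitFunction (by simp) hinv
  have hfe : ∀ᶠ g in 𝓝 (1 : Matrix ι ι ℂ), Psi pr a b (g, f g) = 0 := by
    rw [hf]
    have := cdf.eventually_apply_implicitFunction (by simp) hinv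
    rw [hPsi0] at this
    exact this
  refine ⟨fun g => (f g : Matrix κ κ ℂ), (pS lev).subtypeL.contDiff.contDiffAt.comp _ hfc, ?_, ?_⟩
  · show ((f 1 : pS lev) : Matrix κ κ ℂ) = 0
    rw [hf1]
    rfl
  have hunit : ∀ᶠ g in 𝓝 (1 : Matrix ι ι ℂ), IsUnit g := Units.isOpen.mem_nhds isUnit_one
  filter_upwards [hfe, hunit] with g hg1 hg2
  obtain ⟨y, hyd⟩ : ∃ y : pS lev, y = f g := ⟨_, rfl⟩
  rw [← hyd] at hg1 ⊢
  have hl : Lvl lev (y : Matrix κ κ ℂ) := y.2.1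
  have hh : (y : Matrix κ κ ℂ).IsHermitian := y.2.2
  refine ⟨hg2, hl, hh, ?_⟩
  have hGinv : (bd g (NormedSpace.exp (y : Matrix κ κ ℂ)))⁻¹ = Gi ((g, y) : Matrix ι ι ℂ × pS lev) := by
    rw [(bda7 g _ hg2 (Matrix.isUnit_exp _)).2, ← Matrix.exp_neg, Matrix.nonsing_inv_eq_ringInverse]
    rfl
  have hlm : Lvl lev (NormedSpace.exp (-(y : Matrix κ κ ℂ))) := (lvx _ (lvx _ hl).1).2.2
  have hla : Low lev (Gf ((g, y) : Matrix ι ι ℂ × pS lev) * a * Gi ((g, y) : Matrix ι ι ℂ × pS lev)) :=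
    (bl4 _ (bl4 a hLa g _ (lvx _ hl).2.2).1 (Ring.inverse g) _ hlm).2
  have hrb : Rai lev (Gf ((g, y) : Matrix ι ι ℂ × pS lev) * b * Gi ((g, y) : Matrix ι ι ℂ × pS lev)) :=
    (bl5 _ (bl5 b hRb g _ (lvx _ hl).2.2).1 (Ring.inverse g) _ hlm).2
  obtain ⟨h, y', hy', hm, -, hyH⟩ := bl7 _ _ hla hrb
  rw [hGinv]
  refine ⟨h, ?_⟩
  have hy0 : y' = 0 := by
    unfold Psi at hg1
    rw [hm, tbL_bd] at hg1
    have h7 : pr y' = (⟨y', hy', hyH⟩ : pS lev) := hpr ⟨y', hy', hyH⟩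
    rw [hg1] at h7
    have h9 := congrArg (fun z : pS lev => (z : Matrix κ κ ℂ)) h7
    exact h9.symm
  rw [hy0] at hm
  exact hm

end Pool.Agent.Helper10.NO
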